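import Mathlib

/-!
# Odd perfect numbers: tools (the first five lemmas are those of the library of `EulerPartIndex`)
-/

set_option autoImplicit false

namespace Pool.Agent.LibEP20

open ArithmeticFunction Finset

/-- geometric sums -/
theorem geo {p : ℕ} (hp : p.Prime) (i : ℕ) :
    sigma 1 (p ^ i) * (p - 1) + 1 = p ^ (i + 1) := by
  have h1 : p - 1 + 1 = p := Nat.sub_add_cancel hp.one_lt.le
  have h := geom_sum_mul_add (p - 1) (i + 1)
  rw [h1] at h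
  rw [sigma_one_apply_prime_pow hp]
  exact h

theorem le_sig {n : ℕ} (hn : n ≠ 0) : n ≤ sigma 1 n := by
  rw [sigma_one_apply]
  exact single_le_sum (f := fun d => d) (fun _ _ => Nat.zero_le _) (Nat.mem_divisors_self n hn)

theorem coprime_sig_self {p : ℕ} (hp : p.Prime) (i : ℕ) : Nat.Coprime (sigma 1 (p ^ i)) p := by
  rw [sigma_one_apply_prime_pow hp, Finset.sum_range_succ']
  rw [pow_zero]
  have h : p ∣ ∑ k ∈ range i, p ^ (k + 1) := dvd_sum fun k _ => dvd_pow_self p (Nat.succ_ne_zero k)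
  obtain ⟨t, ht⟩ := h
  rw [ht]
  simp

/-- The valuation of `σ (q ^ k)` at an odd prime divisor of `q + 1`. -/
theorem val_sig {p q k K : ℕ} (hp : p.Prime) (hp2 : p ≠ 2) (hq : q.Prime) (hpq : p ∣ q + 1)
    (hk : k + 1 = 2 * K) (hK : K ≠ 0) :
    padicValNat p (sigma 1 (q ^ k)) = padicValNat p (q + 1) + padicValNat p K := by
  have : Fact p.Prime := ⟨hp⟩
  have hq1 : 1 < q := hq.one_lt
  have hW0 : sigma 1 (q ^ k) ≠ 0 := by
    have := le_sig (n := q ^ k) (pow_ne_zero _ hq.ne_zero)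
    have h2 : 0 < q ^ k := pow_pos hq.pos _
    omega
  have h1 : sigma 1 (q ^ k) * (q - 1) = (q ^ 2) ^ K - 1 ^ K := by
    rw [← pow_mul, ← hk, one_pow]
    have := geo hq k
    omega
  have hpx : p ∣ q ^ 2 - 1 := by
    have : q ^ 2 - 1 = (q + 1) * (q - 1) := by
      have := Nat.sq_sub_sq q 1
      simpa using this
    rw [this]
    exact hpq.mul_right _
  have hnp : ¬ p ∣ q ^ 2 := by
    intro h
    have h2 : p ∣ q := hp.dvd_of_dvd_pow h
    have h3 : p ∣ 1 := (Nat.dvd_add_right h2).1 hpq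
    exact hp.one_lt.ne' (Nat.dvd_one.1 h3)
  have h3 := padicValNat.pow_sub_pow (p := p) (x := q ^ 2) (y := 1) (hp.odd_of_ne_two hp2)
    (one_lt_pow₀ hq1 two_ne_zero) hpx hnp hK
  rw [← h1] at h3
  have h4 : q ^ 2 - 1 = (q + 1) * (q - 1) := by
    have := Nat.sq_sub_sq q 1
    simpa using this
  rw [h4, padicValNat.mul hW0 (by omega), padicValNat.mul (by omega) (by omega)] at h3
  omega

/-- The two relations between `n`, `m = σ (n ^ 2) / q ^ k` and `σ (q ^ k)`. -/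
theorem setup {q k n : ℕ} (hodd : Odd (q ^ k * n ^ 2)) (hperf : Nat.Perfect (q ^ k * n ^ 2))
    (hq : q.Prime) (hcop : Nat.Coprime q n) :
    ∃ m, m ≠ 0 ∧ sigma 1 (n ^ 2) = q ^ k * m ∧ sigma 1 (q ^ k) * m = 2 * n ^ 2 := by
  have hn0 : n ≠ 0 := by
    rintro rfl
    simp at hodd
  have hpos : 0 < q ^ k * n ^ 2 := Nat.mul_pos (pow_pos hq.pos _) (by positivity)
  have h1 : sigma 1 (q ^ k * n ^ 2) = 2 * (q ^ k * n ^ 2) := by
    rw [sigma_one_apply]
    exact (Nat.perfect_iff_sum_divisors_eq_two_mul hpos).1 hperf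
  have hc : Nat.Coprime (q ^ k) (n ^ 2) := (hcop.pow_left k).pow_right 2
  rw [isMultiplicative_sigma.map_mul_of_coprime hc] at h1
  have h2 : Nat.Coprime (q ^ k) (sigma 1 (q ^ k)) := (coprime_sig_self hq k).symm.pow_left k
  have h3 : q ^ k ∣ sigma 1 (n ^ 2) := by
    refine h2.dvd_of_dvd_mul_left ?_
    rw [h1]
    exact ⟨2 * n ^ 2, by ring⟩
  obtain ⟨m, hm⟩ := h3
  have hs0 : sigma 1 (n ^ 2) ≠ 0 := by
    have := le_sig (n := n ^ 2) (pow_ne_zero _ hn0)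
    have h2 : 0 < n ^ 2 := by positivity
    omega
  refine ⟨m, ?_, hm, ?_⟩
  · rintro rfl
    rw [mul_zero] at hm
    exact hs0 hm
  · rw [hm] at h1
    have h4 : q ^ k * (sigma 1 (q ^ k) * m) = q ^ k * (2 * n ^ 2) := by
      rw [show q ^ k * (sigma 1 (q ^ k) * m) = sigma 1 (q ^ k) * (q ^ k * m) by ring, h1]
      ring
    exact Nat.eq_of_mul_eq_mul_left (pow_pos hq.pos k) h4

theorem dvd_sig {q k K : ℕ} (hq : q.Prime) (hk : k + 1 = 2 * K) : q + 1 ∣ sigma 1 (q ^ k) := by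
  have hq1 := hq.one_lt
  have h1 : sigma 1 (q ^ k) * (q - 1) = (q ^ 2) ^ K - 1 ^ K := by
    rw [← pow_mul, ← hk, one_pow]
    have := geo hq k
    omega
  have h4 : q ^ 2 - 1 = (q + 1) * (q - 1) := by
    have := Nat.sq_sub_sq q 1
    simpa using this
  have h2 := Nat.sub_dvd_pow_sub_pow (q ^ 2) 1 K
  rw [← h1, h4] at h2
  exact Nat.dvd_of_mul_dvd_mul_right (by omega) h2


theorem pow_split {p τ A B : ℕ} (hp : p.Prime) (h : p ^ τ ∣ A * B) (hc : ¬ (p ∣ A ∧ p ∣ B)) :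
    p ^ τ ∣ A ∨ p ^ τ ∣ B := by
  by_cases hA : p ∣ A
  · left
    have hB : ¬ p ∣ B := fun hB => hc ⟨hA, hB⟩
    have h1 : Nat.Coprime (p ^ τ) B := Nat.Coprime.pow_left _ ((Nat.Prime.coprime_iff_not_dvd hp).2 hB)
    exact h1.dvd_of_dvd_mul_right h
  · right
    have h1 : Nat.Coprime (p ^ τ) A := Nat.Coprime.pow_left _ ((Nat.Prime.coprime_iff_not_dvd hp).2 hA)
    exact h1.dvd_of_dvd_mul_left h

theorem lemA {P q a v : ℕ} (h1 : P ∣ q + 1) (h2 : P ∣ q ^ a * v + 1) (hv : 2 ≤ v) : P ≤ v + 1 := by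
  have h3 : (q : ℤ) ≡ -1 [ZMOD P] := by
    rw [Int.modEq_iff_dvd]
    have h : (P : ℤ) ∣ ((q + 1 : ℕ) : ℤ) := Int.natCast_dvd_natCast.2 h1
    have e : (-1 : ℤ) - q = -((q + 1 : ℕ) : ℤ) := by push_cast; ring
    rw [e]
    exact (dvd_neg).2 h
  have h4 : (P : ℤ) ∣ (-1) ^ a * v + 1 := by
    have h5 : (q : ℤ) ^ a * v + 1 ≡ (-1) ^ a * v + 1 [ZMOD P] := ((h3.pow a).mul_right _).add_right _
    have h6 : (P : ℤ) ∣ (q : ℤ) ^ a * v + 1 := by exact_mod_cast Int.natCast_dvd_natCast.2 h2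
    have h7 := dvd_add h5.dvd h6
    rwa [sub_add_cancel] at h7
  rcases Nat.even_or_odd a with h | h
  · rw [h.neg_one_pow, one_mul] at h4
    have h5 := Int.le_of_dvd (by omega) h4
    exact_mod_cast h5
  · rw [h.neg_one_pow] at h4
    have h5 : (P : ℤ) ∣ (v : ℤ) - 1 := by
      have h6 : (v : ℤ) - 1 = -(-1 * v + 1) := by ring
      rw [h6]
      exact (dvd_neg).2 h4
    have h6 := Int.le_of_dvd (by omega) h5
    omega

theorem lemB {p τ q a v : ℕ} (hp : p.Prime) (hp5 : 5 ≤ p) (h1 : p ^ τ ∣ q ^ 4 + q ^ 2 + 1)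
    (h2 : p ^ τ ∣ q ^ a * v + 1) (hv : 2 ≤ v) : p ^ τ ≤ v ^ 2 + v + 1 := by
  have hx : (q : ZMod (p ^ τ)) ^ 4 + (q : ZMod (p ^ τ)) ^ 2 + 1 = 0 := by
    have := (ZMod.natCast_eq_zero_iff (q ^ 4 + q ^ 2 + 1) (p ^ τ)).2 h1
    exact_mod_cast this
  have hw : (q : ZMod (p ^ τ)) ^ a * (v : ZMod (p ^ τ)) + 1 = 0 := by
    have := (ZMod.natCast_eq_zero_iff (q ^ a * v + 1) (p ^ τ)).2 h2
    exact_mod_cast this
  set x : ZMod (p ^ τ) := (q : ZMod (p ^ τ)) with hxd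
  set w : ZMod (p ^ τ) := (v : ZMod (p ^ τ)) with hwd
  have hx6 : x ^ 6 = 1 := by linear_combination (x ^ 2 - 1) * hx
  have hw2 : x ^ (2 * a) * w ^ 2 = 1 := by
    have h3 : x ^ a * w = -1 := eq_neg_of_add_eq_zero_left hw
    calc x ^ (2 * a) * w ^ 2 = (x ^ a * w) ^ 2 := by ring
      _ = 1 := by rw [h3]; ring
  have hx6c : ∀ c : ℕ, x ^ (6 * c) = 1 := fun c => by rw [pow_mul, hx6, one_pow]
  obtain ⟨y, rfl⟩ : ∃ y, v = y + 2 := ⟨v - 2, by omega⟩
  have hp2 : ¬ p ∣ 2 := fun h => by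
    have := Nat.le_of_dvd (by norm_num) h
    omega
  obtain ⟨c, hc⟩ : ∃ c, a = 3 * c ∨ a = 3 * c + 1 ∨ a = 3 * c + 2 := ⟨a / 3, by omega⟩
  rcases hc with hc | hc
  · -- `w ^ 2 = 1`
    have h3 : w ^ 2 = 1 := by
      have h4 : x ^ (2 * a) = 1 := by rw [hc, show 2 * (3 * c) = 6 * c by ring]; exact hx6c c
      rwa [h4, one_mul] at hw2
    have h4 : p ^ τ ∣ (y + 1) * (y + 3) := by
      rw [← ZMod.natCast_eq_zero_iff]
      have h5 : ((y + 2 : ℕ) : ZMod (p ^ τ)) ^ 2 = 1 := h3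
      push_cast at h5 ⊢
      linear_combination h5
    rcases pow_split hp h4 (by
      rintro ⟨h5, h6⟩
      have h7 : p ∣ (y + 3) - (y + 1) := Nat.dvd_sub h6 h5
      have h8 : (y + 3) - (y + 1) = 2 := by omega
      rw [h8] at h7
      exact hp2 h7) with h5 | h5
    · have := Nat.le_of_dvd (by omega) h5
      nlinarith
    · have := Nat.le_of_dvd (by omega) h5
      nlinarith
  · -- `w ^ 4 + w ^ 2 + 1 = 0`
    have h3 : w ^ 4 + w ^ 2 + 1 = 0 := by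
      rcases hc with hc | hc
      · have h4 : x ^ (2 * a) = x ^ 2 := by
          rw [hc, show 2 * (3 * c + 1) = 6 * c + 2 by ring, pow_add, hx6c, one_mul]
        rw [h4] at hw2
        have h5 : w ^ 2 = x ^ 4 := by linear_combination x ^ 4 * hw2 - w ^ 2 * hx6
        linear_combination (w ^ 2 + x ^ 4 + 1) * h5 + x ^ 2 * hx6 + hx
      · have h4 : x ^ (2 * a) = x ^ 4 := by
          rw [hc, show 2 * (3 * c + 2) = 6 * c + 4 by ring, pow_add, hx6c, one_mul]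
        rw [h4] at hw2
        have h5 : w ^ 2 = x ^ 2 := by linear_combination x ^ 2 * hw2 - w ^ 2 * hx6
        linear_combination (w ^ 2 + x ^ 2 + 1) * h5 + hx
    have h4 : p ^ τ ∣ ((y + 2) ^ 2 + (y + 2) + 1) * ((y + 2) * (y + 1) + 1) := by
      rw [← ZMod.natCast_eq_zero_iff]
      have h5 : ((y + 2 : ℕ) : ZMod (p ^ τ)) ^ 4 + ((y + 2 : ℕ) : ZMod (p ^ τ)) ^ 2 + 1 = 0 := h3
      push_cast at h5 ⊢
      linear_combination h5
    rcases pow_split hp h4 (by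
      rintro ⟨h5, h6⟩
      have h7 : p ∣ ((y + 2) ^ 2 + (y + 2) + 1) - ((y + 2) * (y + 1) + 1) := Nat.dvd_sub h5 h6
      have h8 : ((y + 2) ^ 2 + (y + 2) + 1) - ((y + 2) * (y + 1) + 1) = 2 * (y + 2) := by
        rw [Nat.sub_eq_iff_eq_add (by nlinarith)]
        ring
      rw [h8] at h7
      rcases (Nat.Prime.dvd_mul hp).1 h7 with h9 | h9
      · exact hp2 h9
      · have h10 : p ∣ 1 := (Nat.dvd_add_right (h9.mul_right (y + 1))).1 h6
        exact hp.one_lt.ne' (Nat.dvd_one.1 h10)) with h5 | h5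
    · exact Nat.le_of_dvd (by positivity) h5
    · have := Nat.le_of_dvd (by positivity) h5
      nlinarith

end Pool.Agent.LibEP20
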