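import Pool.Agent.LibEP20.Basic

set_option autoImplicit false

namespace Pool.Agent.LibEP20

open ArithmeticFunction Finset

theorem lemD {p P q a v : ℕ} (hp3 : 3 ≤ p) (hq : 5 ≤ q) (hP : 2 * P ≤ q + 1) (ha : a ≠ 0)
    (hv : p ≤ v + 1) (h : q ^ a * v + 1 = p * P) : False := by
  have h1 : q ≤ q ^ a := Nat.le_self_pow ha q
  have h2 : q * v + 1 ≤ p * P := by
    rw [← h]
    exact Nat.add_le_add_right (Nat.mul_le_mul_right _ h1) 1
  obtain ⟨s, rfl⟩ : ∃ s, p = s + 3 := ⟨p - 3, by omega⟩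
  have h3 : q * (s + 2) ≤ q * v := Nat.mul_le_mul_left _ (by omega)
  have h4 : (s + 3) * (2 * P) ≤ (s + 3) * (q + 1) := Nat.mul_le_mul_left _ hP
  nlinarith

theorem lemC1 {p P q a u c : ℕ} (hp5 : 5 ≤ p) (hq : 5 ≤ q) (hP2 : p * p ≤ P)
    (hPq : Nat.Coprime P q) {G : ℕ} (hc : q * c + 1 ∣ G) (hc1 : c ≤ q + 1) (hPc : P ∣ q * c + 1)
    (hG : ¬ p * P ∣ G) (ha : a ≠ 0) (hu : 2 ≤ u) (h : q ^ a * (u * (p - 1)) + 1 = p * P) : False := by
  obtain ⟨s, rfl⟩ : ∃ s, p = s + 5 := ⟨p - 5, by omega⟩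
  have hs : s + 5 - 1 = s + 4 := by omega
  rw [hs] at h
  set v := u * (s + 4) with hvd
  have hv : 2 * (s + 4) ≤ v := Nat.mul_le_mul_right _ hu
  have hPF : P ≤ q * c + 1 := Nat.le_of_dvd (by omega) hPc
  have hcq : q * c ≤ q * (q + 1) := Nat.mul_le_mul_left _ hc1
  rcases Nat.lt_or_ge a 2 with ha2 | ha2
  · have ha1 : a = 1 := by omega
    rw [ha1, pow_one] at h
    rcases lt_trichotomy v c with hvc | hvc | hvc
    · -- `v < c`
      have h1 : P ∣ c - v := by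
        have h2 : P ∣ q * (c - v) := by
          have h3 : q * (c - v) = (q * c + 1) - (q * v + 1) := by
            rw [Nat.mul_sub]
            omega
          rw [h3]
          exact Nat.dvd_sub hPc (h ▸ dvd_mul_left _ _)
        exact hPq.dvd_of_dvd_mul_left h2
      have h2 : P ≤ c - v := Nat.le_of_dvd (by omega) h1
      have h3 : P + v ≤ q + 1 := by omega
      have h4 : (s + 5) * (P + v) ≤ (s + 5) * (q + 1) := Nat.mul_le_mul_left _ h3
      have h5 : q * (2 * (s + 4)) ≤ q * v := Nat.mul_le_mul_left _ hv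
      have h6 : (s + 5) * (2 * (s + 4)) ≤ (s + 5) * v := Nat.mul_le_mul_left _ hv
      nlinarith
    · -- `v = c`
      rw [hvc] at h
      rw [h] at hc
      exact hG hc
    · -- `v > c`
      have h1 : P ∣ v - c := by
        have h2 : P ∣ q * (v - c) := by
          have h3 : q * (v - c) = (q * v + 1) - (q * c + 1) := by
            rw [Nat.mul_sub]
            omega
          rw [h3]
          exact Nat.dvd_sub (h ▸ dvd_mul_left _ _) hPc
        exact hPq.dvd_of_dvd_mul_left h2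
      have h2 : P ≤ v - c := Nat.le_of_dvd (by omega) h1
      have h3 : c + P ≤ v := by omega
      have h4 : q * (c + P) ≤ q * v := Nat.mul_le_mul_left _ h3
      have h5 : q < s + 5 := by
        by_contra hcon
        push Not at hcon
        have h6 : (s + 5) * P ≤ q * P := Nat.mul_le_mul_right _ hcon
        nlinarith
      have h6 : (q + 1) * (q + 1) ≤ (s + 5) * (s + 5) := Nat.mul_le_mul (by omega) (by omega)
      nlinarith
  · have h1 : q ^ 2 ≤ q ^ a := Nat.pow_le_pow_right (by omega) ha2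
    have h2 : q ^ 2 * (2 * (s + 4)) ≤ q ^ a * v := Nat.mul_le_mul h1 hv
    have h3 : (s + 5) * P ≤ (s + 5) * (q * (q + 1) + 1) := Nat.mul_le_mul_left _ (by omega)
    obtain ⟨r, rfl⟩ : ∃ r, q = r + 5 := ⟨q - 5, by omega⟩
    have h4 : (r + 5) ^ 2 * (2 * (s + 4)) + 1 ≤ (s + 5) * ((r + 5) * (r + 5 + 1) + 1) := by
      calc (r + 5) ^ 2 * (2 * (s + 4)) + 1 ≤ (r + 5) ^ a * v + 1 := Nat.add_le_add_right h2 1
        _ = (s + 5) * P := h
        _ ≤ _ := h3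
    have h5 : (s + 5) * ((r + 5) * (r + 5 + 1) + 1) < (r + 5) ^ 2 * (2 * (s + 4)) + 1 := by
      have h6 : (r + 5) ^ 2 * (2 * (s + 4)) + 1 = (s + 5) * ((r + 5) * (r + 5 + 1) + 1) +
          (s * r ^ 2 + 9 * (s * r) + 19 * s + 3 * r ^ 2 + 25 * r + 46) := by ring
      rw [h6]
      omega
    omega

theorem lemC {p τ q a u : ℕ} (hp : p.Prime) (hp5 : 5 ≤ p) (hq : 5 ≤ q) (hτ : 2 ≤ τ)
    (h1 : p ^ τ ∣ q ^ 4 + q ^ 2 + 1) (h2 : ¬ p ^ (τ + 1) ∣ q ^ 4 + q ^ 2 + 1) (ha : a ≠ 0)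
    (hu : u ≠ 0) (h : q ^ a * (u * (p - 1)) + 1 = p ^ (τ + 1)) : False := by
  have hP2 : p * p ≤ p ^ τ := by
    rw [← sq]
    exact Nat.pow_le_pow_right hp.pos hτ
  have hpd : p ^ (τ + 1) = p * p ^ τ := by ring
  have hv2 : 2 ≤ u * (p - 1) := by
    have h3 : 1 * (p - 1) ≤ u * (p - 1) := Nat.mul_le_mul_right _ (Nat.pos_of_ne_zero hu)
    omega
  have h3 : p ^ τ ≤ (u * (p - 1)) ^ 2 + u * (p - 1) + 1 :=
    lemB hp hp5 h1 (by rw [h]; exact pow_dvd_pow p (by omega)) hv2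
  have hu2 : 2 ≤ u := by
    by_contra hcon
    have h4 : u = 1 := by omega
    rw [h4, one_mul] at h3
    obtain ⟨s, rfl⟩ : ∃ s, p = s + 5 := ⟨p - 5, by omega⟩
    have hs : s + 5 - 1 = s + 4 := by omega
    rw [hs] at h3
    nlinarith
  have hp0 : p ∣ p ^ τ := dvd_pow_self p (by omega)
  have hpq : ¬ p ∣ q := by
    intro h4
    have h5 : p ∣ q ^ 4 + q ^ 2 := (h4.trans (dvd_pow_self q (by norm_num))).add
      (h4.trans (dvd_pow_self q (by norm_num)))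
    have h6 : p ∣ 1 := (Nat.dvd_add_right h5).1 (hp0.trans h1)
    exact hp.one_lt.ne' (Nat.dvd_one.1 h6)
  have hPq : Nat.Coprime (p ^ τ) q := Nat.Coprime.pow_left _ ((Nat.Prime.coprime_iff_not_dvd hp).2 hpq)
  obtain ⟨r, rfl⟩ : ∃ r, q = r + 5 := ⟨q - 5, by omega⟩
  have hG : (r + 5) ^ 4 + (r + 5) ^ 2 + 1 = ((r + 5) * (r + 6) + 1) * ((r + 5) * (r + 4) + 1) := by ring
  rw [hpd] at h h2
  have hsp : p ^ τ ∣ (r + 5) * (r + 6) + 1 ∨ p ^ τ ∣ (r + 5) * (r + 4) + 1 := by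
    refine pow_split hp (hG ▸ h1) ?_
    rintro ⟨h5, h6⟩
    have h7 : p ∣ ((r + 5) * (r + 6) + 1) - ((r + 5) * (r + 4) + 1) := Nat.dvd_sub h5 h6
    have h8 : ((r + 5) * (r + 6) + 1) - ((r + 5) * (r + 4) + 1) = 2 * (r + 5) := by
      rw [Nat.sub_eq_iff_eq_add (by nlinarith)]
      ring
    rw [h8] at h7
    rcases (Nat.Prime.dvd_mul hp).1 h7 with h9 | h9
    · have := Nat.le_of_dvd (by norm_num) h9
      omega
    · exact hpq h9
  rcases hsp with h5 | h5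
  · exact lemC1 hp5 hq hP2 hPq (c := r + 6) (by rw [hG]; exact dvd_mul_right _ _) (by omega) h5 h2 ha hu2 h
  · exact lemC1 hp5 hq hP2 hPq (c := r + 4) (by rw [hG]; exact dvd_mul_left _ _) (by omega) h5 h2 ha hu2 h

end Pool.Agent.LibEP20
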