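import Pool.Agent.LibEP20.Contra

set_option autoImplicit false

namespace Pool.Agent.LibEP20

open ArithmeticFunction Finset

/-- The local inequality at a prime `p ∣ q + 1`. `S = σ (p ^ (2 b)) = q ^ a * u`, `μ`, `e`, `τ`, `2 b` the
exponents of `p` in `m`, `K`, `q + 1`, `n ^ 2`. -/
theorem local_one {p q b a u μ e τ : ℕ} (hp : p.Prime) (hp3 : 3 ≤ p) (hq : 5 ≤ q)
    (hS : sigma 1 (p ^ (2 * b)) = q ^ a * u) (hτ : p ^ τ ∣ q + 1) (hτ0 : τ ≠ 0) (hqodd : q % 2 = 1)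
    (hb : τ + e + μ = 2 * b) : p ^ τ ≤ p ^ μ * u * p ^ e := by
  have hgeo := geo hp (2 * b)
  rw [hS] at hgeo
  have hS0 : p ^ (2 * b) ≤ sigma 1 (p ^ (2 * b)) := le_sig (pow_ne_zero _ hp.ne_zero)
  have hu : u ≠ 0 := by
    rintro rfl
    rw [hS, mul_zero] at hS0
    have := pow_pos hp.pos (2 * b)
    omega
  have hM1 : 1 ≤ p ^ μ := Nat.one_le_pow _ _ hp.pos
  have he1 : 1 ≤ p ^ e := Nat.one_le_pow _ _ hp.pos
  rcases Nat.eq_zero_or_pos a with ha | ha
  · rw [ha, pow_zero, one_mul] at hS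
    rw [hS] at hS0
    calc p ^ τ ≤ p ^ (2 * b) := Nat.pow_le_pow_right hp.pos (by omega)
      _ ≤ u := hS0
      _ = 1 * u * 1 := by ring
      _ ≤ p ^ μ * u * p ^ e := Nat.mul_le_mul (Nat.mul_le_mul_right _ hM1) he1
  · have hpdef : p ^ (2 * b + 1) = p * p ^ (2 * b) := by ring
    have h1 : q ^ a * (u * (p - 1)) + 1 = p ^ (2 * b + 1) := by
      rw [← hgeo]
      ring
    have hv : p - 1 ≤ u * (p - 1) := by
      have := Nat.mul_le_mul_right (p - 1) (Nat.pos_of_ne_zero hu)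
      omega
    rcases Nat.eq_zero_or_pos (μ + e) with h0 | h0
    · exfalso
      have h2 : 2 * b = τ := by omega
      rw [hpdef, h2] at h1
      have h3 : 2 * p ^ τ ≤ q + 1 := by
        have h4 : 2 * p ^ τ ∣ q + 1 := by
          have h5 : Nat.Coprime 2 (p ^ τ) := by
            refine Nat.Coprime.pow_right _ ((Nat.coprime_primes Nat.prime_two hp).2 (by omega))
          exact h5.mul_dvd_of_dvd_of_dvd (by omega) hτ
        exact Nat.le_of_dvd (by omega) h4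
      exact lemD hp3 hq h3 ha.ne' (v := u * (p - 1)) (by omega) h1
    · have h2 : p ^ τ ≤ u * (p - 1) + 1 :=
        lemA hτ (by rw [h1]; exact pow_dvd_pow p (by omega)) (by omega)
      have h3 : u * (p - 1) + 1 ≤ p * u := by
        obtain ⟨s, rfl⟩ : ∃ s, p = s + 1 := ⟨p - 1, by omega⟩
        have h4 : s + 1 - 1 = s := by omega
        rw [h4]
        have h5 := Nat.pos_of_ne_zero hu
        nlinarith
      have h4 : p ≤ p ^ μ * p ^ e := by
        rw [← pow_add]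
        exact Nat.le_self_pow h0.ne' p
      calc p ^ τ ≤ p * u := h2.trans h3
        _ ≤ p ^ μ * p ^ e * u := Nat.mul_le_mul_right _ h4
        _ = p ^ μ * u * p ^ e := by ring

/-- The local inequality at a prime `p ≥ 5` dividing `q ^ 4 + q ^ 2 + 1`. -/
theorem local_three {p q b a u μ e τ : ℕ} (hp : p.Prime) (hp5 : 5 ≤ p) (hq : 5 ≤ q)
    (hS : sigma 1 (p ^ (2 * b)) = q ^ a * u) (hτ : p ^ τ ∣ q ^ 4 + q ^ 2 + 1)
    (hτ1 : ¬ p ^ (τ + 1) ∣ q ^ 4 + q ^ 2 + 1) (hτ0 : τ ≠ 0)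
    (hb : τ + e + μ = 2 * b) : p ^ τ ≤ (p ^ μ * u * p ^ e) ^ 2 := by
  have hgeo := geo hp (2 * b)
  rw [hS] at hgeo
  have hS0 : p ^ (2 * b) ≤ sigma 1 (p ^ (2 * b)) := le_sig (pow_ne_zero _ hp.ne_zero)
  have hu : u ≠ 0 := by
    rintro rfl
    rw [hS, mul_zero] at hS0
    have := pow_pos hp.pos (2 * b)
    omega
  have hM1 : 1 ≤ p ^ μ := Nat.one_le_pow _ _ hp.pos
  have he1 : 1 ≤ p ^ e := Nat.one_le_pow _ _ hp.pos
  have hf1 : p ^ μ * u * p ^ e ≤ (p ^ μ * u * p ^ e) ^ 2 := Nat.le_self_pow two_ne_zero _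
  rcases Nat.eq_zero_or_pos a with ha | ha
  · rw [ha, pow_zero, one_mul] at hS
    rw [hS] at hS0
    calc p ^ τ ≤ p ^ (2 * b) := Nat.pow_le_pow_right hp.pos (by omega)
      _ ≤ u := hS0
      _ = 1 * u * 1 := by ring
      _ ≤ p ^ μ * u * p ^ e := Nat.mul_le_mul (Nat.mul_le_mul_right _ hM1) he1
      _ ≤ _ := hf1
  · have h1 : q ^ a * (u * (p - 1)) + 1 = p ^ (2 * b + 1) := by
      rw [← hgeo]
      ring
    have hv : p - 1 ≤ u * (p - 1) := by
      have := Nat.mul_le_mul_right (p - 1) (Nat.pos_of_ne_zero hu)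
      omega
    rcases Nat.eq_zero_or_pos (μ + e) with h0 | h0
    · exfalso
      have h2 : 2 * b = τ := by omega
      rw [h2] at h1
      exact lemC hp hp5 hq (by omega) hτ hτ1 ha.ne' hu h1
    · have h2 : p ^ τ ≤ (u * (p - 1)) ^ 2 + u * (p - 1) + 1 :=
        lemB hp hp5 hτ (by rw [h1]; exact pow_dvd_pow p (by omega)) (by omega)
      have h3 : u * (p - 1) + 1 ≤ p * u := by
        obtain ⟨s, rfl⟩ : ∃ s, p = s + 1 := ⟨p - 1, by omega⟩
        have h4 : s + 1 - 1 = s := by omega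
        rw [h4]
        have h5 := Nat.pos_of_ne_zero hu
        nlinarith
      have h4 : p ≤ p ^ μ * p ^ e := by
        rw [← pow_add]
        exact Nat.le_self_pow h0.ne' p
      have h5 : p * u ≤ p ^ μ * u * p ^ e := by
        calc p * u ≤ p ^ μ * p ^ e * u := Nat.mul_le_mul_right _ h4
          _ = p ^ μ * u * p ^ e := by ring
      calc p ^ τ ≤ (u * (p - 1)) ^ 2 + u * (p - 1) + 1 := h2
        _ ≤ (u * (p - 1) + 1) ^ 2 := by nlinarith
        _ ≤ (p ^ μ * u * p ^ e) ^ 2 := Nat.pow_le_pow_left (h3.trans h5) 2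

end Pool.Agent.LibEP20
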