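import Pool.Agent.LibEP20.Prod

set_option autoImplicit false

namespace Pool.Agent.LibEP20

open ArithmeticFunction Finset

/-- `3 ∥ q ^ 4 + q ^ 2 + 1` -/
theorem three_fac {q : ℕ} (h : q % 3 ≠ 0) : ∃ g, q ^ 4 + q ^ 2 + 1 = 3 * g ∧ ¬ 3 ∣ g := by
  obtain ⟨j, hj⟩ : ∃ j, q = 3 * j + 1 ∨ q = 3 * j + 2 := ⟨q / 3, by omega⟩
  obtain ⟨i, hi⟩ : ∃ i, q ^ 2 = 3 * i + 1 := by
    rcases hj with rfl | rfl
    · exact ⟨3 * j ^ 2 + 2 * j, by ring⟩
    · exact ⟨3 * j ^ 2 + 4 * j + 1, by ring⟩
  refine ⟨3 * (i ^ 2 + i) + 1, ?_, by omega⟩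
  have : q ^ 4 = (q ^ 2) ^ 2 := by ring
  rw [this, hi]
  ring

theorem main {q k n : ℕ} (hodd : Odd (q ^ k * n ^ 2)) (hperf : Nat.Perfect (q ^ k * n ^ 2))
    (hq : q.Prime) (hq4 : q % 4 = 1) (hk4 : k % 4 = 1) (hcop : Nat.Coprime q n) (h3k : 3 ∣ k + 1) :
    q ^ (4 * k + 6) < 48 * (k + 1) ^ 2 * n ^ 8 := by
  obtain ⟨m, hm0, hm, hW⟩ := setup hodd hperf hq hcop
  obtain ⟨L, hL⟩ : ∃ L, k + 1 = 6 * L := ⟨(k + 1) / 6, by omega⟩
  have hL0 : L ≠ 0 := by omega
  have hq5 : 5 ≤ q := by
    have := hq.two_le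
    omega
  have hnodd : Odd n := by
    have h1 := (Nat.odd_mul.1 hodd).2
    exact (Nat.odd_pow_iff two_ne_zero).1 h1
  have hn0 : n ≠ 0 := by
    rintro rfl
    simp at hnodd
  obtain ⟨h, hh⟩ : ∃ h, q + 1 = 2 * h := ⟨(q + 1) / 2, by omega⟩
  have hq3 : q % 3 ≠ 0 := by
    intro h1
    have h2 : (3 : ℕ) ∣ q := Nat.dvd_of_mod_eq_zero h1
    have h3 := (Nat.prime_dvd_prime_iff_eq Nat.prime_three hq).1 h2
    omega
  obtain ⟨g, hg, hg3⟩ := three_fac hq3
  obtain ⟨w, hw⟩ := dvd_sig6 hq hL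
  have hn2 : n ^ 2 = h * (q ^ 4 + q ^ 2 + 1) * w * m := by
    have h2 : 2 * (n ^ 2) = 2 * (h * (q ^ 4 + q ^ 2 + 1) * w * m) := by
      rw [← hW, hw, hh]
      ring
    omega
  have hn2odd : Odd (n ^ 2) := hnodd.pow
  have hpn : ∀ p, p.Prime → p ∣ n ^ 2 → p ∣ n := fun p hp h => hp.dvd_of_dvd_pow h
  have hmn : m ∣ n ^ 2 := ⟨h * (q ^ 4 + q ^ 2 + 1) * w, by rw [hn2]; ring⟩
  have hhn : h ∣ n ^ 2 := ⟨(q ^ 4 + q ^ 2 + 1) * w * m, by rw [hn2]; ring⟩
  have hGn : q ^ 4 + q ^ 2 + 1 ∣ n ^ 2 := ⟨h * w * m, by rw [hn2]; ring⟩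
  have hgn : g ∣ n ^ 2 := (Dvd.intro_left 3 hg.symm).trans hGn
  have hqm : ¬ q ∣ m := by
    intro h1
    have h2 : q ∣ n := hpn q hq (h1.trans hmn)
    have h3 := Nat.eq_one_of_dvd_coprimes hcop dvd_rfl h2
    omega
  have hh0 : h ≠ 0 := by omega
  have hg0 : g ≠ 0 := by
    rintro rfl
    simp at hg
  set W := h ^ 2 * g with hWd
  have hW0 : W ≠ 0 := mul_ne_zero (pow_ne_zero 2 hh0) hg0
  let u : ℕ → ℕ := fun p => ordCompl[q] (sigma 1 (p ^ (2 * n.factorization p)))
  let f : ℕ → ℕ := fun p => p ^ m.factorization p * u p * p ^ (3 * L).factorization p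
  -- the local inequalities
  have hloc : ∀ p ∈ n.primeFactors, p ^ W.factorization p ≤ (f p) ^ 2 := by
    intro p hpmem
    have hp : p.Prime := Nat.prime_of_mem_primeFactors hpmem
    have hpdn : p ∣ n := Nat.dvd_of_mem_primeFactors hpmem
    have hp2 : p ≠ 2 := by
      rintro rfl
      exact (Nat.not_even_iff_odd.2 hnodd) (even_iff_two_dvd.2 hpdn)
    have hp3 : 3 ≤ p := by
      have := hp.two_le
      omega
    have hS0 : sigma 1 (p ^ (2 * n.factorization p)) ≠ 0 := by
      have h1 := le_sig (n := p ^ (2 * n.factorization p)) (pow_ne_zero _ hp.ne_zero)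
      have h2 : 0 < p ^ (2 * n.factorization p) := pow_pos hp.pos _
      omega
    have hS : sigma 1 (p ^ (2 * n.factorization p)) =
        q ^ (sigma 1 (p ^ (2 * n.factorization p))).factorization q * u p :=
      (Nat.ordProj_mul_ordCompl_eq_self _ q).symm
    have hu0 : u p ≠ 0 := by
      intro h1
      rw [h1, mul_zero] at hS
      exact hS0 hS
    have hf1 : 1 ≤ (f p) ^ 2 := by
      have h1 : 1 ≤ f p := Nat.mul_pos (Nat.mul_pos (pow_pos hp.pos _) (Nat.pos_of_ne_zero hu0))
        (pow_pos hp.pos _)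
      exact Nat.one_le_pow _ _ h1
    have hsig0 : sigma 1 (q ^ k) ≠ 0 := by
      have h1 := le_sig (n := q ^ k) (pow_ne_zero _ hq.ne_zero)
      have h2 : 0 < q ^ k := pow_pos hq.pos _
      omega
    -- the relation of exponents
    have hexp : (sigma 1 (q ^ k)).factorization p + m.factorization p = 2 * n.factorization p := by
      have h1 := congrArg (fun x => x.factorization p) hW
      rw [Nat.factorization_mul hsig0 hm0, Nat.factorization_mul two_ne_zero (pow_ne_zero 2 hn0),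
        Nat.factorization_pow] at h1
      simp only [Finsupp.add_apply, Finsupp.smul_apply, smul_eq_mul] at h1
      rw [Nat.factorization_eq_zero_of_not_dvd (n := 2) (p := p) (fun h2 => hp2
        ((Nat.prime_dvd_prime_iff_eq hp Nat.prime_two).1 h2)), zero_add] at h1
      exact h1
    have hWf : W.factorization p = 2 * h.factorization p + g.factorization p := by
      rw [hWd, Nat.factorization_mul (pow_ne_zero 2 hh0) hg0, Nat.factorization_pow]
      simp
    have hhf : (q + 1).factorization p = h.factorization p := by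
      rw [hh, Nat.factorization_mul two_ne_zero hh0]
      simp only [Finsupp.add_apply]
      rw [Nat.factorization_eq_zero_of_not_dvd (n := 2) (p := p) (fun h2 => hp2
        ((Nat.prime_dvd_prime_iff_eq hp Nat.prime_two).1 h2)), zero_add]
    by_cases hpq : p ∣ q + 1
    · -- `p ∣ q + 1`
      have hgp : g.factorization p = 0 := by
        refine Nat.factorization_eq_zero_of_not_dvd fun hpg => ?_
        have h1 : p ∣ q ^ 4 + q ^ 2 + 1 := by
          rw [hg]
          exact hpg.mul_left 3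
        have h2 : p ∣ 3 := by
          obtain ⟨s, rfl⟩ : ∃ s, q = s + 1 := ⟨q - 1, by omega⟩
          have h3 : (s + 1) ^ 4 + (s + 1) ^ 2 + 1 = (s + 1 + 1) * (s * ((s + 1) ^ 2 + 2)) + 3 := by ring
          rw [h3] at h1
          exact (Nat.dvd_add_right (hpq.mul_right _)).1 h1
        have h3 : p = 3 := (Nat.prime_dvd_prime_iff_eq hp Nat.prime_three).1 h2
        rw [h3] at hpg
        exact hg3 hpg
      have h1 := val_sig (k := k) hp hp2 hq hpq (K := 3 * L) (by omega) (by omega)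
      rw [← Nat.factorization_def _ hp, ← Nat.factorization_def _ hp, ← Nat.factorization_def _ hp] at h1
      have h2 : (q + 1).factorization p ≠ 0 := by
        have := (hp.dvd_iff_one_le_factorization (n := q + 1) (by omega)).1 hpq
        omega
      have h3 := local_one (q := q) (b := n.factorization p) (u := u p) (μ := m.factorization p)
        (e := (3 * L).factorization p) (τ := (q + 1).factorization p) hp hp3 hq5 hS
        (Nat.ordProj_dvd (q + 1) p) h2 (by omega) (by omega)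
      rw [hWf, hgp, ← hhf, add_zero, mul_comm 2, pow_mul]
      exact Nat.pow_le_pow_left h3 2
    · have hhp : h.factorization p = 0 := by
        rw [← hhf]
        exact Nat.factorization_eq_zero_of_not_dvd hpq
      rw [hWf, hhp, mul_zero, zero_add]
      by_cases hpg : p ∣ g
      · have hp3' : p ≠ 3 := by
          rintro rfl
          exact hg3 hpg
        have hp5 : 5 ≤ p := by
          have h4 : p ≠ 4 := by
            rintro rfl
            exact absurd hp (by norm_num)
          omega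
        have hpG : p ∣ q ^ 4 + q ^ 2 + 1 := by
          rw [hg]
          exact hpg.mul_left 3
        have hgf : (q ^ 4 + q ^ 2 + 1).factorization p = g.factorization p := by
          rw [hg, Nat.factorization_mul (by norm_num) hg0]
          simp only [Finsupp.add_apply]
          rw [Nat.factorization_eq_zero_of_not_dvd (n := 3) (p := p) (fun h2 => hp3'
            ((Nat.prime_dvd_prime_iff_eq hp Nat.prime_three).1 h2)), zero_add]
        have h1 := val_sig6 hp hp5 hq hpG hL hL0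
        rw [← Nat.factorization_def _ hp, ← Nat.factorization_def _ hp, ← Nat.factorization_def _ hp] at h1
        have hG0 : q ^ 4 + q ^ 2 + 1 ≠ 0 := by omega
        have h2 : (q ^ 4 + q ^ 2 + 1).factorization p ≠ 0 := by
          have := (hp.dvd_iff_one_le_factorization hG0).1 hpG
          omega
        have h3 := local_three (q := q) (b := n.factorization p) (u := u p) (μ := m.factorization p)
          (e := (3 * L).factorization p) (τ := (q ^ 4 + q ^ 2 + 1).factorization p) hp hp5 hq5 hS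
          (Nat.ordProj_dvd _ p) (Nat.pow_succ_factorization_not_dvd hG0 hp) h2 (by omega)
        rw [← hgf]
        exact h3
      · rw [Nat.factorization_eq_zero_of_not_dvd hpg, pow_zero]
        exact hf1
  -- the product
  have hprod : W ≤ (m * m * (3 * L)) ^ 2 := by
    have h1 : ∏ p ∈ n.primeFactors, p ^ W.factorization p = W := by
      refine prod_M hn0 hW0 fun p hp hpW => ?_
      rcases (Nat.Prime.dvd_mul hp).1 hpW with h2 | h2
      · exact hpn p hp ((hp.dvd_of_dvd_pow h2).trans hhn)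
      · exact hpn p hp (h2.trans hgn)
    have h2 : ∏ p ∈ n.primeFactors, f p ≤ m * m * (3 * L) := by
      show ∏ p ∈ n.primeFactors, (p ^ m.factorization p * u p * p ^ (3 * L).factorization p) ≤ _
      rw [prod_mul_distrib, prod_mul_distrib, prod_M hn0 hm0 (fun p hp h3 => hpn p hp (h3.trans hmn))]
      have h3 : ∏ p ∈ n.primeFactors, u p = m := prod_u hq hn0 hm0 hqm hm
      rw [h3]
      exact Nat.mul_le_mul_left _ (prod_K (by omega))
    calc W = ∏ p ∈ n.primeFactors, p ^ W.factorization p := h1.symm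
      _ ≤ ∏ p ∈ n.primeFactors, (f p) ^ 2 := prod_le_prod' hloc
      _ = (∏ p ∈ n.primeFactors, f p) ^ 2 := prod_pow _ _ _
      _ ≤ (m * m * (3 * L)) ^ 2 := Nat.pow_le_pow_left h2 2
  have hq6 : q ^ 6 < 12 * (m * m * (3 * L)) ^ 2 := by
    have h1 : 12 * W = (q + 1) ^ 2 * (q ^ 4 + q ^ 2 + 1) := by
      rw [hWd, hh, hg]
      ring
    have h2 : q ^ 6 < (q + 1) ^ 2 * (q ^ 4 + q ^ 2 + 1) := by
      have h3 : (q + 1) ^ 2 * (q ^ 4 + q ^ 2 + 1) = q ^ 6 + (2 * q ^ 5 + 2 * q ^ 4 + 2 * q ^ 3 +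
        2 * q ^ 2 + 2 * q + 1) := by ring
      rw [h3]
      omega
    rw [← h1] at h2
    exact h2.trans_le (Nat.mul_le_mul_left _ hprod)
  -- `q ^ k * m < 2 * n ^ 2`
  have hlt : q ^ k * m < 2 * n ^ 2 := by
    have h1 : q ^ k < sigma 1 (q ^ k) := by
      have h2 := geo hq k
      have hq1 := hq.one_lt
      by_contra hcon
      push Not at hcon
      have h3 : sigma 1 (q ^ k) * (q - 1) ≤ q ^ k * (q - 1) := Nat.mul_le_mul_right _ hcon
      have h4 : q ^ k * (q - 1) + q ^ k = q ^ (k + 1) := by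
        rw [pow_succ]
        have h5 : q - 1 + 1 = q := by omega
        calc q ^ k * (q - 1) + q ^ k = q ^ k * (q - 1 + 1) := by ring
          _ = q ^ k * q := by rw [h5]
      have h6 : 1 < q ^ k := one_lt_pow₀ hq1 (by omega)
      omega
    rw [← hW]
    exact Nat.mul_lt_mul_of_pos_right h1 (Nat.pos_of_ne_zero hm0)
  have hlt4 : (q ^ k * m) ^ 4 < (2 * n ^ 2) ^ 4 := Nat.pow_lt_pow_left hlt (by norm_num)
  have hLp : 0 < 12 * (3 * L) ^ 2 := by positivity
  have hqp : 0 < q ^ (4 * k) := pow_pos hq.pos _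
  calc q ^ (4 * k + 6) = q ^ (4 * k) * q ^ 6 := pow_add _ _ _
    _ < q ^ (4 * k) * (12 * (m * m * (3 * L)) ^ 2) := Nat.mul_lt_mul_of_pos_left hq6 hqp
    _ = 12 * (3 * L) ^ 2 * (q ^ k * m) ^ 4 := by
        rw [mul_comm 4 k, pow_mul]
        ring
    _ < 12 * (3 * L) ^ 2 * (2 * n ^ 2) ^ 4 := Nat.mul_lt_mul_of_pos_left hlt4 hLp
    _ = 48 * (k + 1) ^ 2 * n ^ 8 := by
        rw [hL]
        ring

end Pool.Agent.LibEP20
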