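import Pool.Agent.LibEP20.Local

set_option autoImplicit false

namespace Pool.Agent.LibEP20

open ArithmeticFunction Finset

theorem six_fac (q : ℕ) : q ^ 6 - 1 = (q + 1) * (q ^ 4 + q ^ 2 + 1) * (q - 1) := by
  rcases Nat.eq_zero_or_pos q with h | h
  · subst h
    norm_num
  · obtain ⟨s, rfl⟩ : ∃ s, q = s + 1 := ⟨q - 1, by omega⟩
    have h1 : s + 1 - 1 = s := by omega
    rw [h1, Nat.sub_eq_iff_eq_add (Nat.one_le_pow _ _ h)]
    ring

theorem sig_six {q k L : ℕ} (hq : q.Prime) (hk : k + 1 = 6 * L) :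
    sigma 1 (q ^ k) * (q - 1) = (q ^ 6) ^ L - 1 ^ L := by
  rw [← pow_mul, ← hk, one_pow]
  have := geo hq k
  omega

theorem dvd_sig6 {q k L : ℕ} (hq : q.Prime) (hk : k + 1 = 6 * L) :
    (q + 1) * (q ^ 4 + q ^ 2 + 1) ∣ sigma 1 (q ^ k) := by
  have hq1 := hq.one_lt
  have h1 := sig_six hq hk
  have h2 := Nat.sub_dvd_pow_sub_pow (q ^ 6) 1 L
  rw [← h1, six_fac] at h2
  exact Nat.dvd_of_mul_dvd_mul_right (by omega) h2

theorem val_sig6 {p q k L : ℕ} (hp : p.Prime) (hp5 : 5 ≤ p) (hq : q.Prime)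
    (hpq : p ∣ q ^ 4 + q ^ 2 + 1) (hk : k + 1 = 6 * L) (hL : L ≠ 0) :
    padicValNat p (sigma 1 (q ^ k)) = padicValNat p (q ^ 4 + q ^ 2 + 1) + padicValNat p (3 * L) := by
  have : Fact p.Prime := ⟨hp⟩
  have hq1 : 1 < q := hq.one_lt
  have hS0 : sigma 1 (q ^ k) ≠ 0 := by
    have := le_sig (n := q ^ k) (pow_ne_zero _ hq.ne_zero)
    have h2 : 0 < q ^ k := pow_pos hq.pos _
    omega
  have hnp : ¬ p ∣ q := by
    intro h4
    have h5 : p ∣ q ^ 4 + q ^ 2 := (h4.trans (dvd_pow_self q (by norm_num))).add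
      (h4.trans (dvd_pow_self q (by norm_num)))
    have h6 : p ∣ 1 := (Nat.dvd_add_right h5).1 hpq
    exact hp.one_lt.ne' (Nat.dvd_one.1 h6)
  have hsq : ¬ p ∣ (q + 1) * (q - 1) := by
    intro h
    obtain ⟨s, rfl⟩ : ∃ s, q = s + 1 := ⟨q - 1, by omega⟩
    have h1 : s + 1 - 1 = s := by omega
    rw [h1] at h
    have h2 : p ∣ (s + 1 + 1) * s * ((s + 1) ^ 2 + 2) + 3 := by
      have h3 : (s + 1 + 1) * s * ((s + 1) ^ 2 + 2) + 3 = (s + 1) ^ 4 + (s + 1) ^ 2 + 1 := by ring
      rw [h3]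
      exact hpq
    have h3 : p ∣ 3 := (Nat.dvd_add_right (h.mul_right _)).1 h2
    have := Nat.le_of_dvd (by norm_num) h3
    omega
  have h1 : ¬ p ∣ q + 1 := fun h => hsq (h.mul_right _)
  have h2 : ¬ p ∣ q - 1 := fun h => hsq (h.mul_left _)
  have h3 := padicValNat.pow_sub_pow (p := p) (x := q ^ 6) (y := 1) (hp.odd_of_ne_two (by omega))
    (one_lt_pow₀ hq1 (by norm_num)) (by rw [six_fac]; exact (hpq.mul_left _).mul_right _)
    (fun h => hnp (hp.dvd_of_dvd_pow h)) hL
  rw [← sig_six hq hk, six_fac, padicValNat.mul hS0 (by omega), padicValNat.mul (by positivity) (by omega),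
    padicValNat.mul (by positivity) (by positivity), padicValNat.eq_zero_of_not_dvd h1,
    padicValNat.eq_zero_of_not_dvd h2] at h3
  rw [padicValNat.mul (by norm_num) hL, padicValNat.eq_zero_of_not_dvd (n := 3) (by
    intro h
    have := Nat.le_of_dvd (by norm_num) h
    omega)]
  omega

theorem prod_M {n m : ℕ} (_hn : n ≠ 0) (hm : m ≠ 0) (h : ∀ p, p.Prime → p ∣ m → p ∣ n) :
    ∏ p ∈ n.primeFactors, p ^ m.factorization p = m := by
  have h1 : ∏ p ∈ m.primeFactors, p ^ m.factorization p = m := Nat.prod_factorization_pow_eq_self hm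
  conv_rhs => rw [← h1]
  symm
  refine prod_subset ?_ ?_
  · intro p hp
    have hpp := Nat.prime_of_mem_primeFactors hp
    exact Nat.mem_primeFactors.2 ⟨hpp, h p hpp (Nat.dvd_of_mem_primeFactors hp), _hn⟩
  · intro p _ hp
    rw [← Nat.support_factorization, Finsupp.notMem_support_iff] at hp
    rw [hp, pow_zero]

theorem prod_K {n K : ℕ} (hK : K ≠ 0) : ∏ p ∈ n.primeFactors, p ^ K.factorization p ≤ K := by
  have h1 : ∏ p ∈ K.primeFactors, p ^ K.factorization p = K := Nat.prod_factorization_pow_eq_self hK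
  calc ∏ p ∈ n.primeFactors, p ^ K.factorization p
      ≤ ∏ p ∈ n.primeFactors ∪ K.primeFactors, p ^ K.factorization p := by
        refine prod_le_prod_of_subset_of_one_le' subset_union_left ?_
        intro p hp hp'
        have hpp : p.Prime := by
          rcases mem_union.1 hp with h | h
          · exact absurd h hp'
          · exact Nat.prime_of_mem_primeFactors h
        exact Nat.one_le_pow _ _ hpp.pos
    _ = ∏ p ∈ K.primeFactors, p ^ K.factorization p := by
        symm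
        refine prod_subset subset_union_right ?_
        intro p _ hp
        rw [← Nat.support_factorization, Finsupp.notMem_support_iff] at hp
        rw [hp, pow_zero]
    _ = K := h1

theorem ord_prod (q : ℕ) (S : Finset ℕ) (F : ℕ → ℕ) :
    ordCompl[q] (∏ p ∈ S, F p) = ∏ p ∈ S, ordCompl[q] (F p) := by
  classical
  induction S using Finset.induction_on with
  | empty => simp
  | insert a S ha ih => rw [prod_insert ha, prod_insert ha, Nat.ordCompl_mul, ih]

theorem prod_u {n q m k : ℕ} (hq : q.Prime) (hn : n ≠ 0) (hm0 : m ≠ 0) (hqm : ¬ q ∣ m)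
    (hm : sigma 1 (n ^ 2) = q ^ k * m) :
    ∏ p ∈ n.primeFactors, ordCompl[q] (sigma 1 (p ^ (2 * n.factorization p))) = m := by
  rw [← ord_prod]
  have h1 : ∏ p ∈ n.primeFactors, sigma 1 (p ^ (2 * n.factorization p)) = sigma 1 (n ^ 2) := by
    rw [isMultiplicative_sigma.multiplicative_factorization (sigma 1) (pow_ne_zero 2 hn)]
    unfold Finsupp.prod
    rw [Nat.support_factorization, Nat.primeFactors_pow _ two_ne_zero]
    refine prod_congr rfl fun p _ => ?_
    rw [Nat.factorization_pow]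
    simp
  rw [h1, hm, Nat.ordCompl_mul]
  have h2 : ordCompl[q] m = m := by
    rw [Nat.factorization_eq_zero_of_not_dvd hqm, pow_zero, Nat.div_one]
  have h3 : ordCompl[q] (q ^ k) = 1 := by
    rw [hq.factorization_pow, Finsupp.single_eq_same, Nat.div_self (pow_pos hq.pos _)]
  rw [h2, h3, one_mul]

end Pool.Agent.LibEP20
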